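import Pool.Agent.W586.GZ.Stm

/-!
Project GZ, part SHRA: functionals are small on averages.
-/

set_option autoImplicit false
open Filter Topology

namespace Pool.Agent.W153.GZ.Shra

open Pool.Agent.W586.GZ

lemma avg_neg {P : Par} {N : ℕ} {y : ℕ → ℝ} (h : Avg P N y) : Avg P N (fun n => - y n) := by
  obtain ⟨h1, h2, z, hz1, hz2, hz3⟩ := h
  refine ⟨h1, fun n hn => h2 n (fun h0 => hn (by simp [h0])), fun i n => - z i n, ?_, ?_, ?_⟩
  · intro i hi f hf
    have h3 := hz1 i hi f hf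
    rwa [ev_congr f (fun n => - z i n) (z i) (fun n _ => by simp)]
  · intro i l hil hl p q hp hq
    exact hz2 i l hil hl p q (fun h0 => hp (by simp [h0])) (fun h0 => hq (by simp [h0]))
  · intro n
    show - y n = (∑ i ∈ Finset.range N, - z i n) / N
    rw [hz3 n, Finset.sum_neg_distrib]; ring

lemma sum_switch (γ y : ℕ → ℝ) (s t : Finset ℕ) (hs : ∀ n, y n ≠ 0 → n ∈ s)
    (ht : ∀ n, y n ≠ 0 → n ∈ t) : ∑ n ∈ s, γ n * y n = ∑ n ∈ t, γ n * y n := by
  classical
  have h : ∀ u : Finset ℕ, (∀ n, y n ≠ 0 → n ∈ u) → u ⊆ s ∪ t →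
      ∑ n ∈ u, γ n * y n = ∑ n ∈ s ∪ t, γ n * y n := by
    intro u hu hsub
    apply Finset.sum_subset hsub
    intro n _ hn
    have : y n = 0 := by
      by_contra h'; exact hn (hu n h')
    rw [this, mul_zero]
  rw [h s hs Finset.subset_union_left, h t ht Finset.subset_union_right]

theorem main : S_AVG → S_SEL → S_EXV → S_SHRA := by
  intro _ hSel hE P γ G hG ε hε
  by_contra hcon
  push Not at hcon
  -- signed supply
  have hsup : ∀ N0 M0 : ℕ, ∃ N M1 x, N0 ≤ N ∧ M0 < M1 ∧ Avg P N x ∧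
      (∀ n, x n ≠ 0 → M0 ≤ n ∧ n < M1) ∧ ε ≤ ∑ n ∈ Finset.Ico M0 M1, γ n * x n := by
    intro N0 M0
    obtain ⟨N, hN, y, s, hy, hys, hlt⟩ := hcon (max N0 M0)
    have hgen : ∀ x : ℕ → ℝ, Avg P N x → (∀ n, x n ≠ 0 → n ∈ s) →
        ε ≤ ∑ n ∈ s, γ n * x n → ∃ N M1 x, N0 ≤ N ∧ M0 < M1 ∧ Avg P N x ∧
      (∀ n, x n ≠ 0 → M0 ≤ n ∧ n < M1) ∧ ε ≤ ∑ n ∈ Finset.Ico M0 M1, γ n * x n := by
      intro x hx hxs hle
      have hsupp : ∀ n, x n ≠ 0 → M0 ≤ n ∧ n < max M0 (s.sup id) + 1 := by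
        intro n hn
        refine ⟨((le_max_right N0 M0).trans hN).trans (hx.2.1 n hn), ?_⟩
        have h1 : n ≤ s.sup id := Finset.le_sup (f := id) (hxs n hn)
        have h2 := le_max_right M0 (s.sup id)
        omega
      refine ⟨N, max M0 (s.sup id) + 1, x, (le_max_left N0 M0).trans hN,
        Nat.lt_succ_of_le (le_max_left _ _), hx, hsupp, ?_⟩
      rwa [sum_switch γ x (Finset.Ico M0 (max M0 (s.sup id) + 1)) s
        (fun n hn => Finset.mem_Ico.mpr (hsupp n hn)) hxs]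
    rcases le_total 0 (∑ n ∈ s, γ n * y n) with h0 | h0
    · rw [abs_of_nonneg h0] at hlt
      exact hgen y hy hys hlt.le
    · rw [abs_of_nonpos h0] at hlt
      refine hgen (fun n => - y n) (avg_neg hy)
        (fun n hn => hys n (fun h' => hn (by simp [h']))) ?_
      have : ∑ n ∈ s, γ n * (- y n) = - ∑ n ∈ s, γ n * y n := by
        rw [← Finset.sum_neg_distrib]; exact Finset.sum_congr rfl fun n _ => by ring
      rw [this]; exact hlt.le
  have hsel := hSel P (fun a b x => ε ≤ ∑ n ∈ Finset.Ico a b, γ n * x n) hsup 0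
  have hkey : ∀ q : ℕ, 1 ≤ q → (P.m (2 * q) : ℝ) * ε ≤ 12 * G := by
    intro q hq
    obtain ⟨c, J, x, hc0, hc, hJ, hR, hx, hQ⟩ := hsel q
    set K := P.n (2 * q) with hK
    have hKpos : (0 : ℝ) < K := by
      have h1 := P.nlt.monotone (Nat.zero_le (2 * q))
      have h2 := P.n0
      have : 0 < K := by omega
      exact_mod_cast this
    have hex := (hE P q J x hq (hR _) hJ).all
    set y : ℕ → ℝ := fun n => (P.m (2 * q) : ℝ) / P.n (2 * q) *
      ∑ l ∈ Finset.range (P.n (2 * q)), x l n with hy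
    have h1 := hex.smul (1 / 12)
    have h2 : |(1 / 12 : ℝ)| * 12 = 1 := by rw [abs_of_pos (by norm_num)]; norm_num
    rw [h2] at h1
    have hxr : ∀ l, l < K → ∀ n, x l n ≠ 0 → n ∈ Finset.range (c K) := by
      intro l hl n hn
      have h3 := (hx l n hn).2
      have h4 := hc.monotone (show l + 1 ≤ K from hl)
      exact Finset.mem_range.mpr (by omega)
    have h3 := hG (Finset.range (c K)) _ (by
      intro n hn
      by_contra hno
      apply hn
      have : y n = 0 := by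
        rw [hy]
        show _ * _ = (0 : ℝ)
        rw [Finset.sum_eq_zero, mul_zero]
        intro l hl
        by_contra h'
        exact hno (hxr l (Finset.mem_range.mp hl) n h')
      rw [this, mul_zero]) h1
    have h4 : ∑ n ∈ Finset.range (c K), γ n * (1 / 12 * y n) =
        1 / 12 * ((P.m (2 * q) : ℝ) / K) *
          ∑ l ∈ Finset.range K, ∑ n ∈ Finset.range (c K), γ n * x l n := by
      rw [Finset.sum_comm, Finset.mul_sum]
      apply Finset.sum_congr rfl
      intro n _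
      rw [hy, ← Finset.mul_sum]
      ring
    have h5 : (K : ℝ) * ε ≤ ∑ l ∈ Finset.range K, ∑ n ∈ Finset.range (c K), γ n * x l n := by
      have : ∑ l ∈ Finset.range K, ε ≤
          ∑ l ∈ Finset.range K, ∑ n ∈ Finset.range (c K), γ n * x l n := by
        apply Finset.sum_le_sum
        intro l hl
        rw [sum_switch γ (x l) (Finset.range (c K)) (Finset.Ico (c l) (c (l + 1)))
          (hxr l (Finset.mem_range.mp hl)) (fun n hn => Finset.mem_Ico.mpr (hx l n hn))]
        exact hQ l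
      rwa [Finset.sum_const, Finset.card_range, nsmul_eq_mul] at this
    have h6 : 1 / 12 * ((P.m (2 * q) : ℝ) / K) * ((K : ℝ) * ε) ≤ G := by
      refine le_trans ?_ ((le_abs_self _).trans h3)
      rw [h4]
      apply mul_le_mul_of_nonneg_left h5
      positivity
    have h7 : 1 / 12 * ((P.m (2 * q) : ℝ) / K) * ((K : ℝ) * ε) = P.m (2 * q) * ε / 12 := by
      field_simp
    rw [h7] at h6
    linarith
  obtain ⟨q, hq⟩ := exists_nat_gt (12 * G / ε)
  have h1 := hkey (q + 1) (by omega)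
  have h2 : ((2 * (q + 1) : ℕ) : ℝ) ≤ P.m (2 * (q + 1)) := by
    exact_mod_cast P.mlt.le_apply
  rw [div_lt_iff₀ hε] at hq
  push_cast at h2
  have h3 : (q : ℝ) ≤ P.m (2 * (q + 1)) := by
    have : (0 : ℝ) ≤ q := Nat.cast_nonneg q
    linarith
  nlinarith [mul_le_mul_of_nonneg_right h3 hε.le]

end Pool.Agent.W153.GZ.Shra
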